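import Pool.Agent.Helper14.PF.CoreFin

/-!
Project TF (MP_b8862a_ag): `CoreW` from a theorem on Lie subalgebras of endomorphisms that contain an element with given
multiplicities; the arithmetic of tensor powers.
-/

open Matrix Module

attribute [local instance 100] LieRing.ofAssociativeRing

namespace MH

/-- The sum of the squares of `2 p - w` with the multiplicities `r p`. -/
def sq2 (w : ℤ) (r : ℤ → ℕ) (S : Finset ℤ) : ℕ := ∑ p ∈ S, r p * (2 * p - w).natAbs ^ 2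

/-- For the multiplicities `r p`, `p ∈ S`, of the integers `2 p - w`: every simple irreducible Lie algebra of skew
endomorphisms that contains an element with these eigenvalues contains all the skew endomorphisms. -/
def CoreL (n : Type*) [Fintype n] (w : ℤ) (r : ℤ → ℕ) (S : Finset ℤ) : Prop :=
  ∀ ω : LinearMap.BilinForm ℂ (n → ℂ), ω.IsSymm ∨ ω.IsAlt → ω.Nondegenerate →
    ∀ L : LieSubalgebra ℂ (Module.End ℂ (n → ℂ)), LieAlgebra.IsSimple ℂ L →
    (∀ W : Submodule ℂ (n → ℂ), (∀ x ∈ L, ∀ u ∈ W, x u ∈ W) → W = ⊥ ∨ W = ⊤) →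
    (∀ x ∈ L, ∀ u v, ω (x u) v = -ω u (x v)) →
    ∀ h ∈ L, (⨆ p ∈ S, Module.End.eigenspace h ((2 * p - w : ℤ) : ℂ)) = ⊤ →
      (∀ p ∈ S, finrank ℂ (Module.End.eigenspace h ((2 * p - w : ℤ) : ℂ)) = r p) →
      ∀ x : Module.End ℂ (n → ℂ), (∀ u v, ω (x u) v = -ω u (x v)) → x ∈ L

variable {n : Type*} [Fintype n] [DecidableEq n]

theorem CoreL.coreW {w : ℤ} {r : ℤ → ℕ} {S : Finset ℤ} (core : CoreL n w r S) (h2 : 2 ≤ Fintype.card n)
    (hS : ∀ p, p ∉ S → r p = 0) : CoreW n w r := by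
  intro Q' Qi hQ hQ1 hQ2 L hbr hirr hsk hs h E Λ hh hE hint hr X hX
  have hsa : (Matrix.toBilin' Q').IsSymm ∨ (Matrix.toBilin' Q').IsAlt := by
    rcases hQ with hQ | hQ
    · exact Or.inl (form_symm98 hQ)
    · right
      intro u
      have h3 := form_alt98 hQ u u
      have h4 : (2 : ℂ) * Matrix.toBilin' Q' u u = 0 := by linear_combination h3
      exact (mul_eq_zero.1 h4).resolve_left two_ne_zero
  have hE2 : ∀ p : ℤ, Module.End.eigenspace (Matrix.toLin' h) ((2 * p - w : ℤ) : ℂ) =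
      Module.End.eigenspace (Matrix.toLin' h) ((((2 * p - w : ℤ) : ℝ)) : ℂ) := by
    intro p
    congr 1
  have hsup : (⨆ p ∈ S, Module.End.eigenspace (Matrix.toLin' h) ((2 * p - w : ℤ) : ℂ)) = ⊤ := by
    rw [eq_top_iff]
    intro v _
    have h3 : v = ∑ ν ∈ Λ, E ν *ᵥ v := by
      rw [← Matrix.sum_mulVec, hE.sum, Matrix.one_mulVec]
    rw [h3]
    refine Submodule.sum_mem _ fun ν _ => ?_
    by_cases hν : E ν = 0
    · rw [hν, Matrix.zero_mulVec]
      exact Submodule.zero_mem _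
    obtain ⟨p, hp⟩ := hint ν hν
    have hpS : p ∈ S := by
      by_contra hcon
      have h5 := hS p hcon
      rw [← hr p, ← hp] at h5
      apply hν
      have h6 : (E ν).rank = 0 := h5
      rw [Matrix.rank, Submodule.finrank_eq_zero, LinearMap.range_eq_bot] at h6
      exact (LinearEquiv.map_eq_zero_iff Matrix.toLin').1 h6
    have h4 : E ν *ᵥ v ∈ Module.End.eigenspace (Matrix.toLin' h) ((2 * p - w : ℤ) : ℂ) := by
      rw [hE2, ← hp, hE.eig98]
      exact ⟨v, by rw [Matrix.toLin'_apply]⟩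
    exact Submodule.mem_iSup_of_mem p (Submodule.mem_iSup_of_mem hpS h4)
  have hrk : ∀ p ∈ S, finrank ℂ (Module.End.eigenspace (Matrix.toLin' h) ((2 * p - w : ℤ) : ℂ)) = r p := by
    intro p _
    rw [hE2, hE.finrank_eig98, hr]
  have h4 : Matrix.toLin' X ∈ lieOf L hbr := by
    refine core (Matrix.toBilin' Q') hsa (form_nondeg98 hQ1) (lieOf L hbr) (lieOf_simple hirr h2 hs)
      (lieOf_irr hirr) (lieOf_sk hsk) _ (toLin_mem_lieOf hh) hsup hrk _ fun u v => ?_
    rw [Matrix.toLin'_apply, Matrix.toLin'_apply]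
    exact skew_iff98.1 hX u v
  rw [mem_lieOf, LinearMap.toMatrix'_toLin'] at h4
  exact h4

/-- the arithmetic of tensor powers -/
theorem num_tr14 {n C : ℕ} {w : ℤ} {r : ℤ → ℕ} {S : Finset ℤ} (hS : ∑ p ∈ S, r p = n) (hC : 0 < C)
    (h : C * Nat.gcd n (sq2 w r S) ^ 4 ≤ n) {d k : ℕ} (hd : 2 ≤ d) (hk : 2 ≤ k) (hn : n = d ^ k)
    (hr : ∀ p, d ^ (k - 1) ∣ r p) : False := by
  have h1 : d ^ (k - 1) ∣ n := by
    rw [hn]
    exact pow_dvd_pow d (by omega)
  have h2 : d ^ (k - 1) ∣ sq2 w r S := Finset.dvd_sum fun p _ => Dvd.dvd.mul_right (hr p) _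
  have h3 : d ^ (k - 1) ∣ Nat.gcd n (sq2 w r S) := Nat.dvd_gcd h1 h2
  have hn0 : 0 < n := by
    rw [hn]
    positivity
  have h4 : d ^ (k - 1) ≤ Nat.gcd n (sq2 w r S) := Nat.le_of_dvd (Nat.gcd_pos_of_pos_left _ hn0) h3
  have h5 : (d ^ (k - 1)) ^ 4 ≤ n := (Nat.pow_le_pow_left h4 4).trans
    (le_trans (Nat.le_mul_of_pos_left _ hC) h)
  rw [hn, ← pow_mul] at h5
  have h6 : d ^ k < d ^ ((k - 1) * 4) := Nat.pow_lt_pow_right (by omega) (by omega)
  omega

end MH
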