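import Pool.Agent.Helper14.TF.CoreT
import Pool.Agent.Helper14.PP.Main

/-!
Project TF (MP_b8862a_ag): the numerical condition; the blocks of a Hodge structure.
-/

set_option linter.unusedSectionVars false

open Matrix Module GH

namespace MH

/-- The condition on the numbers `h p`, `p ∈ S`, with the sum `r`: the polynomial `∑ (h p) X ^ p` is not a product of two
symmetric polynomials with non-negative integral coefficients and at least two terms; and `C g ^ 4 ≤ r` for the greatest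
common divisor `g` of `r` and `∑ (h p) (2 p - w) ^ 2`, and neither `r + 1` nor `8 r + 1` is a square, or some `h p` is at least
two and `r` is divisible by a prime number `q` with `25 r ≤ q ^ 2`. -/
def GnN (C : ℕ) (w : ℤ) (S : Finset ℤ) (h : ℤ → ℕ) : Prop :=
  NI.Indec w h ∧
    ((C * Nat.gcd (∑ p ∈ S, h p) (∑ p ∈ S, h p * (2 * p - w).natAbs ^ 2) ^ 4 ≤ ∑ p ∈ S, h p ∧
        ¬ IsSquare (∑ p ∈ S, h p + 1) ∧ ¬ IsSquare (8 * ∑ p ∈ S, h p + 1)) ∨
      ((∃ p, 2 ≤ h p) ∧ ∃ q : ℕ, q.Prime ∧ q ∣ ∑ p ∈ S, h p ∧ 25 * ∑ p ∈ S, h p ≤ q ^ 2))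

/-- The core theorem of the project for the constant `C`. -/
def CoreAll (C : ℕ) : Prop :=
  ∀ (n : Type) [Fintype n] [DecidableEq n] (w : ℤ) (r : ℤ → ℕ) (S : Finset ℤ),
    C * Nat.gcd (Fintype.card n) (sq2 w r S) ^ 4 ≤ Fintype.card n → ¬ IsSquare (Fintype.card n + 1) →
      ¬ IsSquare (8 * Fintype.card n + 1) → CoreL n w r S

theorem GnN.crW {C : ℕ} (hC : 9 ≤ C) (core : CoreAll C) {w : ℤ} {S : Finset ℤ} {r : ℕ} {h : ℤ → ℕ}
    (hr : 2 ≤ r) (hsum : ∑ p ∈ S, h p = r) (hS : ∀ p, p ∉ S → h p = 0) (H : GnN C w S h) : CrW w r h := by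
  obtain ⟨hI, H⟩ := H
  rw [hsum] at H
  rcases H with ⟨h1, h2, h3⟩ | ⟨h2r, hq⟩
  · have hg : 0 < Nat.gcd r (∑ p ∈ S, h p * (2 * p - w).natAbs ^ 2) := Nat.gcd_pos_of_pos_left _ (by omega)
    have h9 : 9 ≤ r := by
      have h4 : 1 ≤ Nat.gcd r (∑ p ∈ S, h p * (2 * p - w).natAbs ^ 2) ^ 4 := Nat.one_le_pow _ _ hg
      calc 9 ≤ C * 1 := by omega
        _ ≤ _ := Nat.mul_le_mul_left C h4
        _ ≤ r := h1
    refine ⟨hI, h9, fun _ => ?_⟩
    refine CoreL.coreW (S := S) (core (Fin r) w h S ?_ ?_ ?_) (by rw [Fintype.card_fin]; exact hr) hS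
    · rw [Fintype.card_fin]
      exact h1
    · rw [Fintype.card_fin]
      exact h2
    · rw [Fintype.card_fin]
      exact h3
  · exact PrN.crW hr ⟨hI, h2r, hq⟩

variable {n : Type*} [Fintype n] [DecidableEq n]
variable {w : ℤ} {Q : Matrix n n ℚ} {S : Finset ℤ} {P : ℤ → Matrix n n ℂ}

namespace IsHW

variable (H : IsHW w Q S P)
include H

/-- the sum of the numbers of a block is its rank -/
theorem sum_blk14 {e : Matrix n n ℂ} (he : IsBlk P e) : ∑ p ∈ S, (e * P p).rank = e.rank := by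
  have h1 : ∀ p, (e * P p) * (e * P p) = e * P p := by
    intro p
    have hPe := EC_P he.mem p
    have hPP : P p * P p = P p := by rw [H.mul, if_pos rfl]
    calc (e * P p) * (e * P p) = e * (P p * e) * P p := by simp only [mul_assoc]
      _ = (e * e) * (P p * P p) := by rw [← hPe]; simp only [mul_assoc]
      _ = e * P p := by rw [he.idem, hPP]
  have h2 : ((∑ p ∈ S, (e * P p).rank : ℕ) : ℂ) = (e.rank : ℂ) := by
    rw [Nat.cast_sum, ← trace_eq_rank he.idem]
    calc ∑ p ∈ S, ((e * P p).rank : ℂ) = ∑ p ∈ S, (e * P p).trace :=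
          Finset.sum_congr rfl fun p _ => (trace_eq_rank (h1 p)).symm
      _ = (∑ p ∈ S, e * P p).trace := (Matrix.trace_sum _ _).symm
      _ = e.trace := by rw [← Finset.mul_sum, H.sum, mul_one]
  exact_mod_cast h2

theorem supp_blk14 (e : Matrix n n ℂ) (p : ℤ) (hp : p ∉ S) : (e * P p).rank = 0 := by
  rw [H.supp p hp, mul_zero, Matrix.rank_zero]

theorem gnN_crW {C : ℕ} (hC : 9 ≤ C) (core : CoreAll C) {e : Matrix n n ℂ} (he : IsBlk P e) (hr : 2 ≤ e.rank)
    (σ : ℂ ≃+* ℂ) (hN : GnN C w S (fun p => (e.map σ * P p).rank)) :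
    CrW w e.rank (fun p => (e.map σ * P p).rank) := by
  refine GnN.crW hC core hr ?_ (fun p hp => H.supp_blk14 _ p hp) hN
  rw [H.sum_blk14 (he.aut σ), rank_aut σ he.idem]

end IsHW

/-- **the blocks are of full type** -/
theorem IsHW.tyBN_gn {n : Type} [Fintype n] [DecidableEq n] {w : ℤ} {Q : Matrix n n ℚ} {S : Finset ℤ}
    {P : ℤ → Matrix n n ℂ} (H : IsHW w Q S P) {C : ℕ} (hC : 9 ≤ C) (core : CoreAll C) (hSD : SelfDual Q P)
    (hdom : ∀ e, IsBlk P e → 2 ≤ e.rank → ∃ σ : ℂ ≃+* ℂ, GnN C w S (fun p => (e.map σ * P p).rank) ∧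
      ((∀ d : ℕ, (∀ p, d ∣ (e.map σ * P p).rank) → d = 1) ∨
        ∀ A : Matrix n n ℚ, (∀ p, toC A * P p = P p * toC A) → ∃ c : ℚ, A = c • (1 : Matrix n n ℚ)))
    {e : Matrix n n ℂ} (he : IsBlk P e) (hr2 : 2 ≤ e.rank) : TyBN Q S P e := by
  obtain ⟨σ, hN, hg | hEnd⟩ := hdom e he hr2
  · exact H.tyBN_crW hSD he hr2 hg (H.gnN_crW hC core he hr2 σ hN)
  · obtain rfl := blk_one14 hEnd he
    have e1 : (1 : Matrix n n ℂ).map σ = 1 := Matrix.map_one _ (map_zero _) (map_one _)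
    have hs := H.sum_blk14 he
    simp only [one_mul, Matrix.rank_one] at hs
    rw [Matrix.rank_one] at hr2
    simp only [e1, one_mul] at hN
    obtain ⟨hI, h1 | ⟨h2, q, hq, hd, h25⟩⟩ := hN
    · obtain ⟨h1, h2, h3⟩ := h1
      rw [hs] at h1 h2 h3
      have hcore : CoreW n w (fun p => (P p).rank) := CoreL.coreW (S := S) (core n w _ S h1 h2 h3) hr2
        (fun p hp => by rw [H.supp p hp, Matrix.rank_zero])
      have hnum : ∀ d k : ℕ, 2 ≤ d → 2 ≤ k → Fintype.card n = d ^ k → (∀ p, d ^ (k - 1) ∣ (P p).rank) → False :=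
        fun d k hd2 hk hc hr => num_tr14 (r := fun p => (P p).rank) hs (by omega) h1 hd2 hk hc hr
      refine H.tyBN_one hEnd (fun X hX => kills_coreW H hEnd hI hcore hnum hX) ?_ he
      have hg : 0 < Nat.gcd (Fintype.card n) (sq2 w (fun p => (P p).rank) S) :=
        Nat.gcd_pos_of_pos_left _ (by omega)
      have h4 : 1 ≤ Nat.gcd (Fintype.card n) (sq2 w (fun p => (P p).rank) S) ^ 4 := Nat.one_le_pow _ _ hg
      calc 9 ≤ C * 1 := by omega
        _ ≤ _ := Nat.mul_le_mul_left C h4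
        _ ≤ _ := h1
    · rw [hs] at hd h25
      refine H.tyBN_prime hSD (fun e' he' _ => ?_) he (by rw [Matrix.rank_one]; exact hr2)
      obtain rfl := blk_one14 hEnd he'
      refine ⟨σ, ⟨?_, ?_, q, hq, ?_, ?_⟩, Or.inr hEnd⟩
      · simp only [e1, one_mul]
        exact hI
      · simp only [e1, one_mul]
        exact h2
      · rw [Matrix.rank_one]
        exact hd
      · rw [Matrix.rank_one]
        exact h25

end MH
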