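import Pool.Agent.Helper3.TF.Dens
import Pool.Agent.Helper14.TF.Num

/-!
Project TF (MP_b8862a_ag): almost all vectors of Hodge numbers of even weight satisfy the numerical condition.
-/

open Finset

namespace MH

theorem gnN_of_good14 {C m : ℕ} {h : Fin (m + 1) → ℕ} (H : TF.Good C m h) :
    GnN C (2 * m) (Icc 0 (2 * m)) (TF.hv m h) := by
  obtain ⟨hI, h1, h2, h3⟩ := H
  have hT : ∑ p ∈ Icc (0 : ℤ) (2 * m), TF.hv m h p * (2 * p - 2 * m).natAbs ^ 2 = TF.tr2 h := by
    have h4 := TF.sum_hv2 h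
    have h5 : ((∑ p ∈ Icc (0 : ℤ) (2 * m), TF.hv m h p * (2 * p - 2 * m).natAbs ^ 2 : ℕ) : ℤ) = (TF.tr2 h : ℤ) := by
      rw [← h4]
      push_cast
      refine sum_congr rfl fun p _ => ?_
      rw [sq_abs, mul_comm]
    exact_mod_cast h5
  refine ⟨hI, Or.inl ?_⟩
  rw [TF.sum_hv, hT]
  exact ⟨h1, h2, h3⟩

/-- **Almost all vectors of Hodge numbers satisfy the condition.** -/
theorem density14 (C m : ℕ) (hm : 1 ≤ m) :
    Filter.Tendsto (fun N : ℕ => (Nat.card {h : Fin (m + 1) → Fin (N + 1) //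
      GnN C (2 * m) (Icc 0 (2 * m)) (TF.hv m fun j => (h j : ℕ))} : ℝ) / ((N : ℝ) + 1) ^ (m + 1))
      Filter.atTop (nhds 1) := by
  refine tendsto_of_tendsto_of_tendsto_of_le_of_le (TF.density m hm C) tendsto_const_nhds ?_ ?_
  · intro N
    refine div_le_div_of_nonneg_right ?_ (by positivity)
    exact Nat.cast_le.2 (Nat.card_le_card_of_injective
      (fun h : {h : Fin (m + 1) → Fin (N + 1) // TF.Good C m (fun j => (h j : ℕ))} =>
        (⟨h.1, gnN_of_good14 h.2⟩ : {h : Fin (m + 1) → Fin (N + 1) //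
          GnN C (2 * m) (Icc 0 (2 * m)) (TF.hv m fun j => (h j : ℕ))}))
      (fun a b hab => Subtype.ext (congrArg (fun x => x.1) hab)))
  · intro N
    have h1 : (0 : ℝ) < ((N : ℝ) + 1) ^ (m + 1) := by positivity
    simp only
    rw [div_le_one h1]
    have h2 : Nat.card {h : Fin (m + 1) → Fin (N + 1) //
        GnN C (2 * m) (Icc 0 (2 * m)) (TF.hv m fun j => (h j : ℕ))} ≤ Nat.card (Fin (m + 1) → Fin (N + 1)) :=
      Nat.card_le_card_of_injective _ Subtype.val_injective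
    have h3 : Nat.card (Fin (m + 1) → Fin (N + 1)) = (N + 1) ^ (m + 1) := by
      rw [Nat.card_eq_fintype_card, Fintype.card_fun, Fintype.card_fin, Fintype.card_fin]
    rw [h3] at h2
    refine (Nat.cast_le.2 h2).trans (le_of_eq ?_)
    push_cast
    rfl

end MH
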