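import Pool.Agent.Helper3.TF.Fin
import Pool.Agent.Helper14.TF.Num

/-!
Project TF (MP_b8862a_ag): in every weight at least two, almost all indecomposable vectors of Hodge numbers satisfy the
numerical condition.
-/

open Finset

namespace MH

theorem gnN_of_num14 {C w : ℕ} {h : ℤ → ℕ} (hI : NI.Indec (w : ℤ) h) (H : TF.Num C w h) :
    GnN C w (Icc 0 (w : ℤ)) h :=
  ⟨hI, Or.inl H⟩

theorem card_le_card14 {A : Type*} [Finite A] {p q : A → Prop} (h : ∀ a, p a → q a) :
    Nat.card {a // p a} ≤ Nat.card {a // q a} :=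
  Nat.card_le_card_of_injective (fun x : {a // p a} => (⟨x.1, h x.1 x.2⟩ : {a // q a}))
    (fun _ _ hab => Subtype.ext (congrArg (fun x => x.1) hab))

/-- **Almost all indecomposable vectors of Hodge numbers are good.** -/
theorem density_gn14 (C m w : ℕ) (hm : 1 ≤ m) (hw : w = 2 * m ∨ w = 2 * m + 1) :
    Filter.Tendsto (fun N : ℕ => (Nat.card {h : Fin (m + 1) → Fin (N + 1) //
        GnN C w (Icc 0 (w : ℤ)) (TF.hod w fun j => (h j : ℕ))} : ℝ) /
      (Nat.card {h : Fin (m + 1) → Fin (N + 1) // NI.Indec (w : ℤ) (TF.hod w fun j => (h j : ℕ))} : ℝ))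
      Filter.atTop (nhds 1) ∧
    (w = 2 * m → Filter.Tendsto (fun N : ℕ => (Nat.card {h : Fin (m + 1) → Fin (N + 1) //
        GnN C w (Icc 0 (w : ℤ)) (TF.hod w fun j => (h j : ℕ))} : ℝ) / ((N : ℝ) + 1) ^ (m + 1))
      Filter.atTop (nhds 1)) := by
  obtain ⟨h1, h2⟩ := TF.density_all m w hm hw C
  have h3 : Filter.Tendsto (fun N : ℕ => (Nat.card {h : Fin (m + 1) → Fin (N + 1) //
        GnN C w (Icc 0 (w : ℤ)) (TF.hod w fun j => (h j : ℕ))} : ℝ) /
      (Nat.card {h : Fin (m + 1) → Fin (N + 1) // NI.Indec (w : ℤ) (TF.hod w fun j => (h j : ℕ))} : ℝ))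
      Filter.atTop (nhds 1) := by
    refine tendsto_of_tendsto_of_tendsto_of_le_of_le h1 tendsto_const_nhds ?_ ?_
    · intro N
      refine div_le_div_of_nonneg_right (Nat.cast_le.2 ?_) (Nat.cast_nonneg _)
      exact card_le_card14 fun h hh => gnN_of_num14 hh.1 hh.2
    · intro N
      refine div_le_one_of_le₀ (Nat.cast_le.2 ?_) (Nat.cast_nonneg _)
      exact card_le_card14 fun h hh => hh.1
  refine ⟨h3, fun hw2 => ?_⟩
  have h4 := h2 hw2
  have h5 := h3.mul h4
  rw [one_mul] at h5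
  refine h5.congr' ?_
  have h6 : ∀ᶠ N : ℕ in Filter.atTop, (0 : ℝ) < (Nat.card {h : Fin (m + 1) → Fin (N + 1) //
      NI.Indec (w : ℤ) (TF.hod w fun j => (h j : ℕ))} : ℝ) / ((N : ℝ) + 1) ^ (m + 1) :=
    h4.eventually (lt_mem_nhds one_pos)
  filter_upwards [h6] with N hN
  have h7 : (Nat.card {h : Fin (m + 1) → Fin (N + 1) //
      NI.Indec (w : ℤ) (TF.hod w fun j => (h j : ℕ))} : ℝ) ≠ 0 := by
    intro h8
    rw [h8, zero_div] at hN
    exact lt_irrefl _ hN
  rw [div_mul_div_cancel₀ h7]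

end MH
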