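import Pool.Agent.Helper14.TF.Dens2
import Pool.Agent.Helper81.TF.Core

/-!
Project TF (MP_b8862a_ag): the main theorem.
-/

open Module Matrix

attribute [local instance 100] LieRing.ofAssociativeRing

namespace MH

theorem exists_coreAll14 : ∃ C : ℕ, 9 ≤ C ∧ CoreAll C := by
  obtain ⟨C, hC, hcore⟩ := TF.core_lie.{0}
  refine ⟨C + 9, by omega, ?_⟩
  intro n _ _ w r S h1 h2 h3 ω hsa hnd L hL hirr hsk h hh hsup hr x hx
  refine hcore n ω hsa hnd L hL hirr hsk h hh w r S hsup hr ?_ h2 h3 x hx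
  exact le_trans (Nat.mul_le_mul_right _ (by omega)) h1

/-- **The main theorem.** -/
theorem tf_main {C : ℕ} (hC : 9 ≤ C) (core : CoreAll C) {n : Type} [Fintype n] [DecidableEq n] {w : ℤ}
    {Q : Matrix n n ℚ} {S : Finset ℤ} {P : ℤ → Matrix n n ℂ} (H : IsHW w Q S P) (hSD : SelfDual Q P)
    (hdom : ∀ e, IsBlk P e → 2 ≤ e.rank → ∃ σ : ℂ ≃+* ℂ, GnN C w S (fun p => (e.map σ * P p).rank) ∧
      ((∀ d : ℕ, (∀ p, d ∣ (e.map σ * P p).rank) → d = 1) ∨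
        ∀ A : Matrix n n ℚ, (∀ p, toC A * P p = P p * toC A) → ∃ c : ℚ, A = c • (1 : Matrix n n ℚ))) :
    (∀ g : GL n ℂ, g ∈ MT S P ↔ InGw w Q P (g : Matrix n n ℂ)) ∧
    ∀ (ℓ : ℕ) [Fact ℓ.Prime] (ι : ℚ_[ℓ] →+* ℂ) (Γ : Subgroup (GL n ℚ_[ℓ])),
      IsGalSD w Q S P (Γ.map (Matrix.GeneralLinearGroup.map ι)) →
      (∃ D : Subgroup (GL n ℚ), IsMonB Q S P D ∧ D.map (Matrix.GeneralLinearGroup.map (algebraMap ℚ ℚ_[ℓ])) ≤ Γ) ∨
      ((∀ e, IsBlk P e → 2 ≤ e.rank → ∃ σ : ℂ ≃+* ℂ, GnN C w S (fun p => (e.map σ * P p).rank) ∧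
          ∀ d : ℕ, (∀ p, d ∣ (e.map σ * P p).rank) → d = 1) ∧ SemiS Γ ∧
        ∀ t, IsTateTensor (Γ.map (Matrix.GeneralLinearGroup.map ι)) 1 1 t → MTfix S P 1 1 t) →
      ∀ (a b : ℕ) (t : (Fin a ⊕ Fin b → n) → ℂ),
        IsTateTensor (Γ.map (Matrix.GeneralLinearGroup.map ι)) a b t ↔ MTfix S P a b t := by
  have h0 : ∀ e, IsBlk P e → e.rank ≠ 1 → 2 ≤ e.rank := by
    intro e he hr
    have h1 : e.rank ≠ 0 := by
      intro h
      obtain ⟨r, W, V, hVW, hWV⟩ := exists_coord48 he.idem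
      have h2 : e.rank = r := _root_.MH.blk_rank he hVW hWV
      apply he.ne
      rw [← hWV]
      have h3 : r = 0 := by omega
      subst h3
      ext i j
      simp [Matrix.mul_apply]
    omega
  have hty : ∀ f, IsBlk P f → 2 ≤ f.rank → TyBN Q S P f := fun f hf hf2 => H.tyBN_gn hC core hSD hdom hf hf2
  refine ⟨H.MT_iff_self14 hty hSD, fun ℓ _ ι Γ G hAB => (pp_main ι H hSD hty).2 Γ G ?_⟩
  rcases hAB with ⟨D, hD, hle⟩ | ⟨hg, hss, h11⟩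
  · refine Or.inl ⟨D, hD, ?_⟩
    refine le_trans (le_of_eq ?_) (Subgroup.map_mono hle)
    rw [mapC, Subgroup.map_map]
    congr 1
    ext g i j
    simp [Matrix.GeneralLinearGroup.map_apply]
  · refine Or.inr ⟨fun e he hr => ?_, hss, h11⟩
    obtain ⟨σ, hN, hd⟩ := hg e he (h0 e he hr)
    exact ⟨σ, H.gnN_crW hC core he (h0 e he hr) σ hN, hd⟩

end MH
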